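import Mathlib

/-!
# Binary forms with dependent `d`-th powers: definitions
-/

set_option autoImplicit false

namespace Pool.Agent.Lib.MP_6e4c7d_nt

/-- A `W_k(r,d)`-set, listed as `f 0, …, f (r-1)`: non-zero, pairwise non-proportional binary forms
of degree `k` over `ℂ` whose `d`-th powers are linearly dependent. -/
def IsWSet (k r d : ℕ) (f : Fin r → MvPolynomial (Fin 2) ℂ) : Prop :=
  (∀ i, (f i).IsHomogeneous k ∧ f i ≠ 0) ∧
  (∀ i j, i ≠ j → ∀ c : ℂ, f i ≠ c • f j) ∧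
  ∃ l : Fin r → ℂ, (∃ i, l i ≠ 0) ∧ ∑ i, l i • f i ^ d = 0

/-- `Φ_k(d)`: the least `r` for which there is a `W_k(r,d)`-set. -/
noncomputable def Phi (k d : ℕ) : ℕ :=
  sInf {r : ℕ | ∃ f : Fin r → MvPolynomial (Fin 2) ℂ, IsWSet k r d f}

end Pool.Agent.Lib.MP_6e4c7d_nt
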