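import Pool.Agent.Lib.MP_6e4c7d_nt.Wron

/-!
# The degree of the Wronskian
-/

set_option autoImplicit false

open Finset Polynomial

namespace Pool.Agent.Lib.MP_6e4c7d_nt

lemma sum_inj_ge : ∀ {n : ℕ} (s : Fin n → ℕ), Function.Injective s →
    ∑ i : Fin n, (i : ℕ) ≤ ∑ i, s i := by
  intro n
  induction n with
  | zero => intro s _; simp
  | succ n ih =>
    intro s hs
    obtain ⟨i0, hi0⟩ : ∃ i0, n ≤ s i0 := by
      by_contra hcon
      push Not at hcon
      have : Fintype.card (Fin (n + 1)) ≤ Fintype.card (Fin n) :=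
        Fintype.card_le_of_injective (fun i => (⟨s i, hcon i⟩ : Fin n)) (by
          intro i j hij
          exact hs (congrArg Fin.val hij))
      simp at this
    have h1 := ih (fun j => s (i0.succAbove j)) (hs.comp Fin.succAbove_right_injective)
    rw [Fin.sum_univ_succAbove s i0, Fin.sum_univ_castSucc]
    simp only [Fin.val_castSucc, Fin.val_last]
    omega

lemma sum_le_of_inj {n N : ℕ} (r : Fin n → Fin (N + 1)) (hr : Function.Injective r) :
    ∑ i, (r i : ℕ) + ∑ i : Fin n, (i : ℕ) ≤ n * N := by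
  have h1 := sum_inj_ge (fun i => N - (r i : ℕ)) (by
    intro i j hij
    apply hr
    apply Fin.ext
    have h2 := (r i).2
    have h3 := (r j).2
    simp only at hij
    omega)
  have h2 : ∑ i, (r i : ℕ) + ∑ i, (N - (r i : ℕ)) = n * N := by
    rw [← Finset.sum_add_distrib]
    have : ∀ i : Fin n, (r i : ℕ) + (N - (r i : ℕ)) = N := fun i => by
      have := (r i).2
      omega
    simp only [this, Finset.sum_const, Finset.card_univ, Fintype.card_fin, smul_eq_mul]
  omega

lemma sum_fin_id (n : ℕ) : 2 * ∑ i : Fin n, (i : ℕ) = n * (n - 1) := by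
  rw [Fin.sum_univ_eq_sum_range (fun i => i) n, mul_comm, Finset.sum_range_id_mul_two]

lemma natDegree_wr_X_pow {n : ℕ} (m : Fin n → ℕ) :
    (wr (fun i => (X : ℂ[X]) ^ m i)).natDegree ≤ ∑ i, m i - ∑ i : Fin n, (i : ℕ) := by
  unfold wr
  rw [Matrix.det_apply]
  refine natDegree_sum_le_of_forall_le _ _ fun τ _ => ?_
  refine (natDegree_smul_le _ _).trans ?_
  by_cases hlt : ∃ i : Fin n, m (τ i) < (i : ℕ)
  · obtain ⟨i, hi⟩ := hlt
    have : ∏ i, wm (fun i => (X : ℂ[X]) ^ m i) (τ i) i = 0 := by
      refine Finset.prod_eq_zero (Finset.mem_univ i) ?_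
      simp only [wm, Matrix.of_apply]
      exact iterate_derivative_eq_zero (by rw [natDegree_X_pow]; exact hi)
    rw [this, natDegree_zero]
    exact Nat.zero_le _
  · push Not at hlt
    have h1 : (∏ i, wm (fun i => (X : ℂ[X]) ^ m i) (τ i) i).natDegree ≤
        ∑ i : Fin n, (m (τ i) - (i : ℕ)) := by
      refine (natDegree_prod_le _ _).trans (Finset.sum_le_sum fun i _ => ?_)
      simp only [wm, Matrix.of_apply]
      refine (natDegree_iterate_derivative _ _).trans ?_
      rw [natDegree_X_pow]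
    refine h1.trans (le_of_eq ?_)
    have h2 : ∑ i : Fin n, (m (τ i) - (i : ℕ)) + ∑ i : Fin n, (i : ℕ) = ∑ i, m i := by
      rw [← Finset.sum_add_distrib, ← Equiv.sum_comp τ m]
      exact Finset.sum_congr rfl fun i _ => Nat.sub_add_cancel (hlt i)
    omega

lemma wr_expand {n N : ℕ} (g : Fin n → ℂ[X]) (hg : ∀ i, (g i).natDegree ≤ N) :
    wr g = ∑ r : Fin n → Fin (N + 1), (∏ i, C ((g i).coeff (r i : ℕ))) *
      wr (fun i => (X : ℂ[X]) ^ (r i : ℕ)) := by
  have hrow : (fun i => wm g i) = fun i => ∑ m : Fin (N + 1),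
      C ((g i).coeff (m : ℕ)) • (fun a : Fin n => derivative^[(a : ℕ)] ((X : ℂ[X]) ^ (m : ℕ))) := by
    funext i a
    rw [Finset.sum_apply]
    simp only [Pi.smul_apply, smul_eq_mul, wm, Matrix.of_apply]
    conv_lhs => rw [(g i).as_sum_range_C_mul_X_pow' (Nat.lt_succ_of_le (hg i))]
    rw [Finset.sum_range, iterate_derivative_sum]
    refine Finset.sum_congr rfl fun m _ => ?_
    rw [iterate_derivative_C_mul]
  have h1 : wr g = Matrix.detRowAlternating.toMultilinearMap (fun i => wm g i) := rfl
  rw [h1, hrow, MultilinearMap.map_sum]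
  refine Finset.sum_congr rfl fun r _ => ?_
  rw [MultilinearMap.map_smul_univ]
  rfl

lemma natDegree_wr_le {n N : ℕ} (g : Fin n → ℂ[X]) (hg : ∀ i, (g i).natDegree ≤ N)
    (h0 : wr g ≠ 0) : (wr g).natDegree + n * (n - 1) ≤ n * N := by
  have hni : ∀ r : Fin n → Fin (N + 1), ¬ Function.Injective r →
      wr (fun i => (X : ℂ[X]) ^ (r i : ℕ)) = 0 := by
    intro r hr
    rw [Function.not_injective_iff] at hr
    obtain ⟨i, j, hij, hne⟩ := hr
    refine Matrix.det_zero_of_row_eq hne ?_
    funext a
    simp only [wm, Matrix.of_apply, hij]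
  by_cases hN : n ≤ N + 1
  · have h1 : (wr g).natDegree ≤ n * N - n * (n - 1) := by
      rw [wr_expand g hg]
      refine natDegree_sum_le_of_forall_le _ _ fun r _ => ?_
      by_cases hr : Function.Injective r
      · have e : (∏ i, C ((g i).coeff (r i : ℕ))) = C (∏ i, (g i).coeff (r i : ℕ)) := by
          rw [map_prod]
        rw [e]
        refine (natDegree_C_mul_le _ _).trans ((natDegree_wr_X_pow _).trans ?_)
        have h2 := sum_le_of_inj r hr
        have h3 := sum_fin_id n
        omega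
      · rw [hni r hr, mul_zero, natDegree_zero]
        exact Nat.zero_le _
    have h2 : n * (n - 1) ≤ n * N := Nat.mul_le_mul_left _ (by omega)
    omega
  · exfalso
    apply h0
    rw [wr_expand g hg]
    refine Finset.sum_eq_zero fun r _ => ?_
    rw [hni r, mul_zero]
    intro hr
    have := Fintype.card_le_of_injective r hr
    simp at this
    omega

end Pool.Agent.Lib.MP_6e4c7d_nt
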