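import Pool.Agent.Lib.MP_6e4c7d_nt.Forms

/-!
# Existence of `W_k(r,d)`-sets, and the icosahedral set for `k = 2`, `d = 14`
-/

set_option autoImplicit false

open Finset MvPolynomial

namespace Pool.Agent.Lib.MP_6e4c7d_nt

lemma pow_relation {R : Type*} [CommRing R] (x y : R) (d : ℕ) :
    ∑ i ∈ range (d + 2), ((-1 : ℤ) ^ (d + 1 - i) * ((d + 1).choose i : ℤ)) •
      (x + (i : R) * y) ^ d = 0 := by
  have h1 := fwdDiff_iter_sum_mul_pow_eq_zero (R := R) (n := d + 1)
    (fun k => x ^ (d - k) * y ^ k * (d.choose k : R))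
  have h2 := congrFun h1 0
  rw [fwdDiff_iter_eq_sum_shift] at h2
  rw [Pi.zero_apply] at h2
  refine Eq.trans (Finset.sum_congr rfl fun i _ => ?_) h2
  congr 1
  rw [add_comm x, add_pow]
  refine Finset.sum_congr rfl fun k _ => ?_
  simp only [nsmul_eq_mul, mul_one, zero_add, mul_pow]
  ring

theorem exists_wset (k d : ℕ) (hk : 1 ≤ k) :
    ∃ f : Fin (d + 2) → MvPolynomial (Fin 2) ℂ, IsWSet k (d + 2) d f := by
  refine ⟨fun i => X 0 ^ (k - 1) * (X 0 + C (i : ℂ) * X 1), ?_, ?_, ?_⟩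
  · intro i
    constructor
    · have h1 : (X 0 ^ (k - 1) : MvPolynomial (Fin 2) ℂ).IsHomogeneous (k - 1) := by
        have := (isHomogeneous_X ℂ (0 : Fin 2)).pow (k - 1)
        rwa [one_mul] at this
      have h2 : (X 0 + C (i : ℂ) * X 1 : MvPolynomial (Fin 2) ℂ).IsHomogeneous 1 := by
        refine (isHomogeneous_X ℂ 0).add ?_
        have := (isHomogeneous_C (Fin 2) (i : ℂ)).mul (isHomogeneous_X ℂ (1 : Fin 2))
        rwa [zero_add] at this
      have h3 := h1.mul h2
      rwa [Nat.sub_add_cancel hk] at h3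
    · intro h0
      have h1 := congrArg (eval ![1, 0]) h0
      simp at h1
  · intro i j hij c h
    apply hij
    have h1 := congrArg (eval ![1, 0]) h
    have h2 := congrArg (eval ![1, 1]) h
    simp at h1 h2
    rw [← h1] at h2
    have h3 : ((i : ℕ) : ℂ) = ((j : ℕ) : ℂ) := by linear_combination h2
    exact Fin.ext (by exact_mod_cast h3)
  · refine ⟨fun i => (((-1 : ℤ) ^ (d + 1 - (i : ℕ)) * ((d + 1).choose (i : ℕ) : ℤ) : ℤ) : ℂ),
      ⟨Fin.last _, ?_⟩, ?_⟩
    · simp
    · have h1 := pow_relation (X 0 : MvPolynomial (Fin 2) ℂ) (X 1) d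
      rw [Finset.sum_range] at h1
      have h2 : (X 0 ^ (k - 1) : MvPolynomial (Fin 2) ℂ) ^ d * ∑ i : Fin (d + 2),
          ((-1 : ℤ) ^ (d + 1 - (i : ℕ)) * ((d + 1).choose (i : ℕ) : ℤ)) •
            (X 0 + ((i : ℕ) : MvPolynomial (Fin 2) ℂ) * X 1) ^ d = 0 := by
        rw [h1, mul_zero]
      rw [← h2, Finset.mul_sum]
      refine Finset.sum_congr rfl fun i _ => ?_
      rw [mul_pow, map_natCast, Int.cast_smul_eq_zsmul, mul_smul_comm]

/-- the coefficients of `(x ^ 2 + x y - y ^ 2) ^ 14` -/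
def ic : ℕ → ℤ := fun i =>
  ([1, -14, 77, -182, 0, 910, -1365, -1430, 5005, 0, -10010, 3640, 14105, -6930, -15625, 6930,
    14105, -3640, -10010, 0, 5005, 1430, -1365, -910, 0, 182, 77, 14, 1] : List ℤ).getD i 0

lemma ic_expand {R : Type*} [CommRing R] (x y : R) :
    (x ^ 2 + x * y - y ^ 2) ^ 14 = ∑ i ∈ range 29, (ic i : R) * (x ^ i * y ^ (28 - i)) := by
  simp only [Finset.sum_range_succ, Finset.sum_range_zero, ic, List.getD_cons_zero,
    List.getD_cons_succ]
  push_cast
  ring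

lemma ico_relation {R : Type*} [CommRing R] (z x y : R) (hz : z ^ 5 = 1)
    (hs : 1 + z + z ^ 2 + z ^ 3 + z ^ 4 = 0) :
    ∑ j ∈ range 5, (z ^ j * x ^ 2 + x * y - z ^ (4 * j) * y ^ 2) ^ 14 =
      -78125 * (x * y) ^ 14 := by
  have h1 : ∀ j ∈ range 5, (z ^ j * x ^ 2 + x * y - z ^ (4 * j) * y ^ 2) ^ 14 =
      ∑ i ∈ range 29, (ic i : R) * (x ^ i * y ^ (28 - i)) * (z ^ (i + 1)) ^ j := by
    intro j _
    have hzj : (z ^ j) ^ 5 = 1 := by
      rw [← pow_mul, mul_comm, pow_mul, hz, one_pow]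
    have e1 : z ^ j * x ^ 2 + x * y - z ^ (4 * j) * y ^ 2 =
        (z ^ j) ^ 4 * ((z ^ j * x) ^ 2 + (z ^ j * x) * y - y ^ 2) := by
      have : z ^ (4 * j) = (z ^ j) ^ 4 := by rw [← pow_mul, mul_comm]
      rw [this]
      linear_combination -(z ^ j * x ^ 2 + x * y) * hzj
    rw [e1, mul_pow, ic_expand, Finset.mul_sum]
    refine Finset.sum_congr rfl fun i _ => ?_
    have e2 : ((z ^ j) ^ 4) ^ 14 = z ^ j := by
      have : ((z ^ j) ^ 4) ^ 14 = ((z ^ j) ^ 5) ^ 11 * z ^ j := by ring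
      rw [this, hzj, one_pow, one_mul]
    rw [e2, mul_pow]
    have e3 : (z ^ (i + 1)) ^ j = z ^ j * (z ^ j) ^ i := by
      rw [← pow_mul, ← pow_mul, ← pow_add]
      congr 1
      ring
    rw [e3]
    ring
  rw [Finset.sum_congr rfl h1, Finset.sum_comm]
  have h2 : ∀ i ∈ range 29, ∑ j ∈ range 5, (ic i : R) * (x ^ i * y ^ (28 - i)) * (z ^ (i + 1)) ^ j =
      if i = 14 then -78125 * (x * y) ^ 14 else 0 := by
    intro i hi
    rw [← Finset.mul_sum]
    have hsum : ∀ m : ℕ, m % 5 ≠ 0 → ∑ j ∈ range 5, (z ^ m) ^ j = 0 := by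
      intro m hm
      have hm5 : z ^ m = z ^ (m % 5) := by
        conv_lhs => rw [← Nat.mod_add_div m 5, pow_add, pow_mul, hz, one_pow, mul_one]
      rw [hm5]
      have hlt : m % 5 < 5 := Nat.mod_lt _ (by norm_num)
      have hz6 : z ^ 6 = z := by rw [show (6 : ℕ) = 5 + 1 from rfl, pow_add, hz]; ring
      have hz8 : z ^ 8 = z ^ 3 := by rw [show (8 : ℕ) = 5 + 3 from rfl, pow_add, hz]; ring
      have hz9 : z ^ 9 = z ^ 4 := by rw [show (9 : ℕ) = 5 + 4 from rfl, pow_add, hz]; ring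
      have hz12 : z ^ 12 = z ^ 2 := by
        rw [show (12 : ℕ) = 5 + (5 + 2) from rfl, pow_add, pow_add, hz]; ring
      have hz16 : z ^ 16 = z := by
        rw [show (16 : ℕ) = 5 + (5 + (5 + 1)) from rfl, pow_add, pow_add, pow_add, hz]; ring
      simp only [Finset.sum_range_succ, Finset.sum_range_zero, ← pow_mul]
      interval_cases h : m % 5
      · exact absurd rfl hm
      · linear_combination hs
      · simp only [Nat.reduceMul]
        rw [hz6, hz8]
        linear_combination hs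
      · simp only [Nat.reduceMul]
        rw [hz6, hz9, hz12]
        linear_combination hs
      · simp only [Nat.reduceMul]
        rw [hz8, hz12, hz16]
        linear_combination hs
    by_cases h14 : i = 14
    · subst h14
      have : z ^ (14 + 1) = 1 := by
        rw [show 14 + 1 = 5 * 3 from rfl, pow_mul, hz, one_pow]
      rw [this, if_pos rfl]
      simp only [Finset.sum_range_succ, Finset.sum_range_zero, ic, List.getD_cons_zero,
        List.getD_cons_succ]
      push_cast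
      ring
    · rw [if_neg h14]
      by_cases hm : (i + 1) % 5 = 0
      · have hic : ic i = 0 := by
          have hi' := Finset.mem_range.1 hi
          have h4 : i = 4 ∨ i = 9 ∨ i = 19 ∨ i = 24 := by omega
          rcases h4 with rfl | rfl | rfl | rfl <;> rfl
        rw [hic]
        simp
      · rw [hsum _ hm, mul_zero]
  rw [Finset.sum_congr rfl h2, Finset.sum_ite_eq' (range 29) 14]
  simp

theorem exists_wset_ico : ∃ f : Fin 6 → MvPolynomial (Fin 2) ℂ, IsWSet 2 6 14 f := by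
  set z : ℂ := Complex.exp (2 * Real.pi * Complex.I / 5) with hz
  have hprim : IsPrimitiveRoot z 5 := by
    have := Complex.isPrimitiveRoot_exp 5 (by norm_num)
    rw [hz]
    exact_mod_cast this
  have hz5 : z ^ 5 = 1 := hprim.pow_eq_one
  have hz0 : z ≠ 0 := hprim.ne_zero (by norm_num)
  have hsum : 1 + z + z ^ 2 + z ^ 3 + z ^ 4 = 0 := by
    have h := hprim.geom_sum_eq_zero (by norm_num)
    simp only [Finset.sum_range_succ, Finset.sum_range_zero] at h
    linear_combination h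
  set f : Fin 6 → MvPolynomial (Fin 2) ℂ := Fin.snoc (fun j : Fin 5 =>
    C (z ^ (j : ℕ)) * X 0 ^ 2 + X 0 * X 1 - C (z ^ (4 * (j : ℕ))) * X 1 ^ 2) (X 0 * X 1) with hf
  have hfc : ∀ j : Fin 5, f j.castSucc = C (z ^ (j : ℕ)) * X 0 ^ 2 + X 0 * X 1 -
      C (z ^ (4 * (j : ℕ))) * X 1 ^ 2 := fun j => by
    rw [hf, Fin.snoc_castSucc]
  have hfl : f (Fin.last 5) = X 0 * X 1 := by
    rw [hf, Fin.snoc_last]
  have hXX : (X 0 * X 1 : MvPolynomial (Fin 2) ℂ).IsHomogeneous 2 :=
    (isHomogeneous_X ℂ (0 : Fin 2)).mul (isHomogeneous_X ℂ (1 : Fin 2))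
  have hCX : ∀ (c : ℂ) (i : Fin 2), (C c * X i ^ 2 : MvPolynomial (Fin 2) ℂ).IsHomogeneous 2 := by
    intro c i
    have := (isHomogeneous_C (Fin 2) c).mul ((isHomogeneous_X ℂ i).pow 2)
    rwa [zero_add, one_mul] at this
  -- values at three points
  have e1 : ∀ j : Fin 5, eval ![1, 0] (f j.castSucc) = z ^ (j : ℕ) := fun j => by
    rw [hfc]; simp
  have e2 : eval ![1, 0] (f (Fin.last 5)) = 0 := by rw [hfl]; simp
  have e3 : ∀ j : Fin 5, eval ![1, 1] (f j.castSucc) - eval ![1, -1] (f j.castSucc) = 2 :=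
    fun j => by rw [hfc]; simp; ring
  have e4 : eval ![1, 1] (f (Fin.last 5)) - eval ![1, -1] (f (Fin.last 5)) = 2 := by
    rw [hfl]; simp; ring
  refine ⟨f, ?_, ?_, ?_⟩
  · intro i
    refine ⟨?_, ?_⟩
    · induction i using Fin.lastCases with
      | last => rw [hfl]; exact hXX
      | cast j =>
        rw [hfc]
        exact ((hCX _ 0).add hXX).sub (hCX _ 1)
    · intro h0
      induction i using Fin.lastCases with
      | last => rw [h0] at e4; simp at e4
      | cast j =>
        have := e3 j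
        rw [h0] at this
        simp at this
  · intro i j hij c h
    have g1 := congrArg (eval ![1, 1]) h
    have g2 := congrArg (eval ![1, -1]) h
    have g3 := congrArg (eval ![1, 0]) h
    rw [smul_eval] at g1 g2 g3
    have hc1 : c = 1 := by
      have hi2 : ∀ i : Fin 6, eval ![1, 1] (f i) - eval ![1, -1] (f i) = 2 := by
        intro i
        induction i using Fin.lastCases with
        | last => exact e4
        | cast j => exact e3 j
      have h3 := hi2 i
      have h4 := hi2 j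
      have h5 : c * 2 = 2 := by
        calc c * 2 = c * (eval ![1, 1] (f j) - eval ![1, -1] (f j)) := by rw [h4]
          _ = eval ![1, 1] (f i) - eval ![1, -1] (f i) := by rw [g1, g2]; ring
          _ = 2 := h3
      linear_combination h5 / 2
    rw [hc1, one_mul] at g3
    apply hij
    induction i using Fin.lastCases with
    | last =>
      induction j using Fin.lastCases with
      | last => rfl
      | cast j => rw [e2, e1] at g3; exact absurd g3.symm (pow_ne_zero _ hz0)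
    | cast i =>
      induction j using Fin.lastCases with
      | last => rw [e2, e1] at g3; exact absurd g3 (pow_ne_zero _ hz0)
      | cast j =>
        rw [e1, e1] at g3
        have := hprim.pow_inj i.2 j.2 g3
        congr 1
        exact Fin.ext this
  · refine ⟨Fin.snoc (fun _ : Fin 5 => (1 : ℂ)) 78125, ⟨0, ?_⟩, ?_⟩
    · have : (0 : Fin 6) = (0 : Fin 5).castSucc := rfl
      rw [this, Fin.snoc_castSucc]
      exact one_ne_zero
    · rw [Fin.sum_univ_castSucc]
      simp only [Fin.snoc_castSucc, Fin.snoc_last, one_smul, hfl]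
      have h1 := ico_relation (C z : MvPolynomial (Fin 2) ℂ) (X 0) (X 1)
        (by rw [← map_pow, hz5, map_one])
        (by
          have := congrArg (C : ℂ →+* MvPolynomial (Fin 2) ℂ) hsum
          simpa using this)
      rw [Finset.sum_range] at h1
      have h2 : ∑ j : Fin 5, f j.castSucc ^ 14 = -78125 * (X 0 * X 1) ^ 14 := by
        rw [← h1]
        refine Finset.sum_congr rfl fun j _ => ?_
        rw [hfc, map_pow, map_pow]
      rw [h2, smul_eq_C_mul]
      have h3 : (C (78125 : ℂ) : MvPolynomial (Fin 2) ℂ) = 78125 := by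
        exact map_ofNat C 78125
      rw [h3]
      ring

/-- Multiplying every form by `x` turns a `W_k(r,d)`-set into a `W_{k+1}(r,d)`-set. -/
lemma IsWSet.mul_X {k r d : ℕ} {f : Fin r → MvPolynomial (Fin 2) ℂ} (hf : IsWSet k r d f) :
    IsWSet (k + 1) r d (fun i => X 0 * f i) := by
  obtain ⟨h1, h2, l, hl, h3⟩ := hf
  have hX : (X 0 : MvPolynomial (Fin 2) ℂ) ≠ 0 := X_ne_zero 0
  refine ⟨fun i => ⟨?_, mul_ne_zero hX (h1 i).2⟩, fun i j hij c h => ?_, l, hl, ?_⟩
  · have := (isHomogeneous_X ℂ (0 : Fin 2)).mul (h1 i).1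
    rwa [add_comm] at this
  · refine h2 i j hij c (mul_left_cancel₀ hX ?_)
    rw [mul_smul_comm]
    exact h
  · have h4 : (X 0 : MvPolynomial (Fin 2) ℂ) ^ d * ∑ i, l i • f i ^ d = 0 := by
      rw [h3, mul_zero]
    rw [← h4, Finset.mul_sum]
    refine Finset.sum_congr rfl fun i _ => ?_
    rw [mul_pow, mul_smul_comm]

lemma exists_wset_ico_of_le (k : ℕ) (hk : 2 ≤ k) :
    ∃ f : Fin 6 → MvPolynomial (Fin 2) ℂ, IsWSet k 6 14 f := by
  induction k, hk using Nat.le_induction with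
  | base => exact exists_wset_ico
  | succ k _ ih =>
    obtain ⟨f, hf⟩ := ih
    exact ⟨_, hf.mul_X⟩

lemma phi_mem (k d : ℕ) (hk : 1 ≤ k) :
    ∃ f : Fin (Phi k d) → MvPolynomial (Fin 2) ℂ, IsWSet k (Phi k d) d f :=
  Nat.sInf_mem (s := {r : ℕ | ∃ f : Fin r → MvPolynomial (Fin 2) ℂ, IsWSet k r d f})
    ⟨d + 2, exists_wset k d hk⟩

lemma phi_bound (k d : ℕ) (hk : 1 ≤ k) (hd : 1 ≤ d) :
    (k : ℤ) * d ≤ ((Phi k d : ℤ) - 2) * (((k : ℤ) - 1) * (Phi k d : ℤ) + 1) := by
  obtain ⟨f, hf⟩ := phi_mem k d hk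
  exact wset_bound hk hd f hf

end Pool.Agent.Lib.MP_6e4c7d_nt
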