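import Pool.Agent.Lib.MP_6e4c7d_nt.Deg

/-!
# Dependent `d`-th powers of polynomials of degree `k` in one variable
-/

set_option autoImplicit false

open Finset Polynomial

namespace Pool.Agent.Lib.MP_6e4c7d_nt

/-- `r` pairwise non-proportional polynomials of degree `k` with dependent `d`-th powers -/
structure Fam (k r d : ℕ) (F : Fin r → ℂ[X]) : Prop where
  deg : ∀ i, (F i).natDegree = k
  ne : ∀ i, F i ≠ 0
  nprop : ∀ i j, i ≠ j → ∀ c : ℂ, F i ≠ C c * F j
  dep : ∃ l : Fin r → ℂ, l ≠ 0 ∧ ∑ i, C (l i) * F i ^ d = 0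

lemma dvd_wr {n : ℕ} (g p : Fin n → ℂ[X]) (h : ∀ i (a : Fin n), p i ∣ derivative^[(a : ℕ)] (g i)) :
    ∏ i, p i ∣ wr g := by
  choose q hq using h
  have e : wm g = Matrix.of fun i a => p i * (Matrix.of q) i a := by
    refine Matrix.ext fun i a => ?_
    simp only [wm, Matrix.of_apply]
    exact hq i a
  unfold wr
  rw [e, Matrix.det_mul_column]
  exact dvd_mul_right _ _

lemma dvd_wr_pow {n d : ℕ} (F : Fin n → ℂ[X]) :
    ∏ i, F i ^ (d - (n - 1)) ∣ wr (fun i => F i ^ d) := by
  refine dvd_wr _ _ fun i a => ?_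
  refine (pow_dvd_pow _ ?_).trans (pow_sub_dvd_iterate_derivative_pow (F i) d (a : ℕ))
  have := a.2
  omega

/-- the Wronskian with one function replaced -/
lemma wr_replace {n : ℕ} (g : Fin (n + 1) → ℂ[X]) (l : Fin (n + 1) → ℂ) (hl : ∀ i, l i ≠ 0)
    (hrel : ∑ i, C (l i) * g i = 0) (j0 : Fin n) :
    ∃ c : ℂ, c ≠ 0 ∧ wr (Function.update (fun j : Fin n => g j.castSucc) j0 (g (Fin.last n))) =
      C c * wr (fun j : Fin n => g j.castSucc) := by
  refine ⟨-(l j0.castSucc / l (Fin.last n)), neg_ne_zero.2 (div_ne_zero (hl _) (hl _)), ?_⟩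
  set c : Fin n → ℂ[X] := fun j => C (-(l j.castSucc / l (Fin.last n))) with hc
  have hlast : g (Fin.last n) = ∑ j : Fin n, c j * g j.castSucc := by
    rw [Fin.sum_univ_castSucc] at hrel
    have h1 : C (l (Fin.last n)) * g (Fin.last n) = - ∑ j : Fin n, C (l j.castSucc) * g j.castSucc :=
      eq_neg_of_add_eq_zero_right hrel
    have h2 : g (Fin.last n) = C (l (Fin.last n))⁻¹ * (C (l (Fin.last n)) * g (Fin.last n)) := by
      rw [← mul_assoc, ← C_mul, inv_mul_cancel₀ (hl _), C_1, one_mul]
    rw [h2, h1, mul_neg, Finset.mul_sum, ← Finset.sum_neg_distrib]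
    refine Finset.sum_congr rfl fun j _ => ?_
    simp only [hc]
    rw [← mul_assoc, ← C_mul, ← neg_mul, ← C_neg]
    congr 2
    field_simp
  have hm : wm (Function.update (fun j : Fin n => g j.castSucc) j0 (g (Fin.last n))) =
      (wm (fun j : Fin n => g j.castSucc)).updateRow j0
        (∑ k : Fin n, c k • (wm (fun j : Fin n => g j.castSucc) k : Fin n → ℂ[X])) := by
    refine Matrix.ext fun i a => ?_
    by_cases hi : i = j0
    · subst hi
      rw [Matrix.updateRow_self]
      simp only [wm, Matrix.of_apply, Function.update_self, Finset.sum_apply, Pi.smul_apply,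
        smul_eq_mul]
      rw [hlast, iterate_derivative_sum]
      refine Finset.sum_congr rfl fun j _ => ?_
      simp only [hc]
      rw [iterate_derivative_C_mul]
    · rw [Matrix.updateRow_ne hi]
      simp only [wm, Matrix.of_apply, Function.update_of_ne hi]
  unfold wr
  rw [hm, Matrix.det_updateRow_sum]
  rfl

lemma core {n k d : ℕ} (F : Fin (n + 1) → ℂ[X]) (hdeg : ∀ i, (F i).natDegree = k)
    (hne : ∀ i, F i ≠ 0) (hspan : Ideal.span (Set.range F) = ⊤) (l : Fin (n + 1) → ℂ)
    (hl : ∀ i, l i ≠ 0) (hrel : ∑ i, C (l i) * F i ^ d = 0)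
    (hind : LinearIndependent ℂ fun j : Fin n => F j.castSucc ^ d) :
    (n + 1) * (k * (d - (n - 1))) + n * (n - 1) ≤ n * (k * d) := by
  set e := d - (n - 1) with he
  set W := wr (fun j : Fin n => F j.castSucc ^ d) with hW
  have hW0 : W ≠ 0 := wr_ne_zero _ hind
  set P := ∏ i, F i ^ e with hP
  have hdvd : ∀ i : Fin (n + 1), P ∣ F i ^ e * W := by
    intro i
    have hPe : P = (∏ j : Fin n, F j.castSucc ^ e) * F (Fin.last n) ^ e := by
      rw [hP, Fin.prod_univ_castSucc]
    induction i using Fin.lastCases with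
    | last =>
      rw [hPe, mul_comm (F (Fin.last n) ^ e) W]
      exact mul_dvd_mul (dvd_wr_pow fun j : Fin n => F j.castSucc) (dvd_refl _)
    | cast j0 =>
      obtain ⟨c, hc0, hc⟩ := wr_replace (fun i => F i ^ d) l hl hrel j0
      have h1 := dvd_wr_pow (d := d) (Function.update (fun j : Fin n => F j.castSucc) j0
        (F (Fin.last n)))
      have e1 : (fun i => Function.update (fun j : Fin n => F j.castSucc) j0
          (F (Fin.last n)) i ^ d) = Function.update (fun j : Fin n => F j.castSucc ^ d) j0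
          (F (Fin.last n) ^ d) := by
        funext i
        by_cases hi : i = j0
        · subst hi
          rw [Function.update_self, Function.update_self]
        · rw [Function.update_of_ne hi, Function.update_of_ne hi]
      rw [e1, hc, ← he] at h1
      have h2 : ∏ i, Function.update (fun j : Fin n => F j.castSucc) j0 (F (Fin.last n)) i ^ e ∣
          W := by
        have h3 : IsUnit (C c) := isUnit_C.2 (isUnit_iff_ne_zero.2 hc0)
        exact (h3.dvd_mul_left).1 h1
      have h4 : P = F j0.castSucc ^ e *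
          ∏ i, Function.update (fun j : Fin n => F j.castSucc) j0 (F (Fin.last n)) i ^ e := by
        rw [hPe, ← Finset.mul_prod_erase univ (fun j : Fin n => F j.castSucc ^ e)
          (Finset.mem_univ j0), ← Finset.mul_prod_erase univ (fun i =>
          Function.update (fun j : Fin n => F j.castSucc) j0 (F (Fin.last n)) i ^ e)
          (Finset.mem_univ j0), Function.update_self]
        have h5 : ∏ i ∈ univ.erase j0, Function.update (fun j : Fin n => F j.castSucc) j0
            (F (Fin.last n)) i ^ e = ∏ i ∈ univ.erase j0, F i.castSucc ^ e := by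
          refine Finset.prod_congr rfl fun i hi => ?_
          rw [Function.update_of_ne (Finset.ne_of_mem_erase hi)]
        rw [h5]
        ring
      rw [h4]
      exact mul_dvd_mul (dvd_refl _) h2
  have hPW : P ∣ W := by
    have h1 := Ideal.span_pow_eq_top (Set.range F) hspan e
    have h2 : ∀ q ∈ Ideal.span ((fun x => x ^ e) '' Set.range F), P ∣ q * W := by
      intro q hq
      refine Submodule.span_induction ?_ ?_ ?_ ?_ hq
      · rintro x ⟨y, ⟨i, rfl⟩, rfl⟩
        exact hdvd i
      · rw [zero_mul]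
        exact dvd_zero _
      · intro x y _ _ hx hy
        rw [add_mul]
        exact dvd_add hx hy
      · intro a x _ hx
        rw [smul_eq_mul, mul_assoc]
        exact hx.mul_left a
    have h3 := h2 1 (by rw [h1]; exact Submodule.mem_top)
    rwa [one_mul] at h3
  have hdegP : P.natDegree = (n + 1) * (k * e) := by
    rw [hP, natDegree_prod _ _ fun i _ => pow_ne_zero _ (hne i)]
    have : ∀ i : Fin (n + 1), (F i ^ e).natDegree = k * e := fun i => by
      rw [natDegree_pow, hdeg i, mul_comm]
    simp only [this, Finset.sum_const, Finset.card_univ, Fintype.card_fin, smul_eq_mul]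
  have h1 := natDegree_le_of_dvd hPW hW0
  have h2 := natDegree_wr_le (N := k * d) (fun j : Fin n => F j.castSucc ^ d) (fun j => by
    rw [natDegree_pow, hdeg, mul_comm]) hW0
  rw [hdegP] at h1
  rw [← hW] at h2
  omega

lemma mono_r {k n : ℕ} {x : ℤ} (hk : 1 ≤ k) (hx : 1 ≤ x)
    (h : x ≤ ((n : ℤ) - 2) * (((k : ℤ) - 1) * n + 1)) :
    x ≤ (((n + 1 : ℕ) : ℤ) - 2) * (((k : ℤ) - 1) * ((n + 1 : ℕ) : ℤ) + 1) := by
  have hk' : (0 : ℤ) ≤ (k : ℤ) - 1 := by
    have : (1 : ℤ) ≤ k := by exact_mod_cast hk
    linarith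
  have hn0 : (0 : ℤ) ≤ n := Int.natCast_nonneg n
  have h1 : (0 : ℤ) ≤ ((k : ℤ) - 1) * n := mul_nonneg hk' hn0
  have hn : (3 : ℤ) ≤ n := by
    by_contra hcon
    push Not at hcon
    have h2 : ((n : ℤ) - 2) * (((k : ℤ) - 1) * n + 1) ≤ 0 :=
      mul_nonpos_of_nonpos_of_nonneg (by linarith) (by linarith)
    linarith
  push_cast
  nlinarith [mul_nonneg hk' hn0, mul_nonneg hk' (by linarith : (0 : ℤ) ≤ (n : ℤ) - 3)]

theorem uni_bound (d : ℕ) (hd : 1 ≤ d) : ∀ (r k : ℕ), 1 ≤ k → ∀ F : Fin r → ℂ[X],
    Fam k r d F → (k : ℤ) * d ≤ ((r : ℤ) - 2) * (((k : ℤ) - 1) * r + 1) := by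
  intro r
  induction r with
  | zero =>
    intro k hk F hF
    obtain ⟨l, hl, -⟩ := hF.dep
    exact absurd (_root_.funext fun i => Fin.elim0 i) hl
  | succ n ih =>
    intro k hk F hF
    have hk1 : (1 : ℤ) ≤ k := by exact_mod_cast hk
    have hd1 : (1 : ℤ) ≤ d := by exact_mod_cast hd
    have hkd : (1 : ℤ) ≤ (k : ℤ) * d := by nlinarith
    obtain ⟨l, hl, hrel⟩ := hF.dep
    by_cases hz : ∃ i0, l i0 = 0
    · -- remove `i0`
      obtain ⟨i0, hi0⟩ := hz
      refine mono_r hk hkd (ih k hk (fun j => F (i0.succAbove j)) ?_)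
      refine ⟨fun j => hF.deg _, fun j => hF.ne _, fun i j hij c => hF.nprop _ _ (fun hh =>
        hij (Fin.succAbove_right_injective hh)) c, fun j => l (i0.succAbove j), ?_, ?_⟩
      · intro h0
        apply hl
        refine _root_.funext fun i => ?_
        by_cases hi : i = i0
        · rw [hi, hi0]; rfl
        · obtain ⟨j, rfl⟩ := Fin.exists_succAbove_eq hi
          exact congrFun h0 j
      · rw [Fin.sum_univ_succAbove _ i0, hi0, C_0, zero_mul, zero_add] at hrel
        exact hrel
    push Not at hz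
    by_cases hind : LinearIndependent ℂ fun j : Fin n => F j.castSucc ^ d
    swap
    · rw [Fintype.linearIndependent_iff] at hind
      push Not at hind
      obtain ⟨c, hc, i, hi⟩ := hind
      refine mono_r hk hkd (ih k hk (fun j => F j.castSucc) ?_)
      refine ⟨fun j => hF.deg _, fun j => hF.ne _, fun i j hij c => hF.nprop _ _ (fun hh =>
        hij (Fin.castSucc_injective n hh)) c, c, fun h0 => hi (congrFun h0 i), ?_⟩
      rw [← hc]
      exact Finset.sum_congr rfl fun j _ => by rw [smul_eq_C_mul]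
    -- the common factor
    have hn1 : 1 ≤ n := by
      by_contra hcon
      have hn0 : n = 0 := by omega
      subst hn0
      rw [Fin.sum_univ_one] at hrel
      rcases mul_eq_zero.1 hrel with h1 | h1
      · exact hz 0 (C_eq_zero.1 h1)
      · exact hF.ne 0 ((pow_eq_zero_iff (by omega : d ≠ 0)).1 h1)
    obtain ⟨h, hh⟩ := (IsPrincipalIdealRing.principal (Ideal.span (Set.range F))).principal
    change Ideal.span (Set.range F) = Ideal.span {h} at hh
    have hdvd : ∀ i, h ∣ F i := fun i => by
      rw [← Ideal.mem_span_singleton, ← hh]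
      exact Ideal.subset_span ⟨i, rfl⟩
    choose G hG using hdvd
    have hh0 : h ≠ 0 := by
      rintro rfl
      exact hF.ne 0 (by rw [hG 0, zero_mul])
    have hG0 : ∀ i, G i ≠ 0 := fun i h0 => hF.ne i (by rw [hG i, h0, mul_zero])
    have hspan : Ideal.span (Set.range G) = ⊤ := by
      have h1 : h ∈ Ideal.span (Set.range F) := by
        rw [hh]; exact Ideal.mem_span_singleton_self h
      rw [Ideal.mem_span_range_iff_exists_fun] at h1
      obtain ⟨u, hu⟩ := h1
      rw [Ideal.eq_top_iff_one, Ideal.mem_span_range_iff_exists_fun]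
      refine ⟨u, ?_⟩
      apply mul_left_cancel₀ hh0
      rw [mul_one, Finset.mul_sum]
      refine Eq.trans (Finset.sum_congr rfl fun i _ => ?_) hu
      rw [hG i]
      ring
    set k' := k - h.natDegree with hk'
    have hdegG : ∀ i, (G i).natDegree = k' := by
      intro i
      have h1 := hF.deg i
      rw [hG i, natDegree_mul hh0 (hG0 i)] at h1
      omega
    have hk'1 : 1 ≤ k' := by
      by_contra hcon
      have h0 : k' = 0 := by omega
      obtain ⟨a, ha⟩ := natDegree_eq_zero.1 ((hdegG 0).trans h0)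
      obtain ⟨b, hb⟩ := natDegree_eq_zero.1 ((hdegG (Fin.last n)).trans h0)
      have hb0 : b ≠ 0 := by
        rintro rfl
        exact hG0 (Fin.last n) (by rw [← hb, C_0])
      have hne : (0 : Fin (n + 1)) ≠ Fin.last n := by
        intro hh
        have := congrArg Fin.val hh
        simp at this
        omega
      apply hF.nprop 0 (Fin.last n) hne (a / b)
      rw [hG 0, hG (Fin.last n), ← ha, ← hb]
      have : C (a / b) * (h * C b) = h * (C (a / b) * C b) := by ring
      rw [this, ← C_mul, div_mul_cancel₀ _ hb0]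
    have hrelG : ∑ i, C (l i) * G i ^ d = 0 := by
      have h1 : h ^ d * ∑ i, C (l i) * G i ^ d = 0 := by
        rw [← hrel, Finset.mul_sum]
        refine Finset.sum_congr rfl fun i _ => ?_
        rw [hG i, mul_pow]
        ring
      exact (mul_eq_zero.1 h1).resolve_left (pow_ne_zero _ hh0)
    have hindG : LinearIndependent ℂ fun j : Fin n => G j.castSucc ^ d := by
      rw [Fintype.linearIndependent_iff] at hind ⊢
      intro c hc
      apply hind c
      have h1 : ∑ j, c j • F j.castSucc ^ d = h ^ d * ∑ j, c j • G j.castSucc ^ d := by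
        rw [Finset.mul_sum]
        refine Finset.sum_congr rfl fun j _ => ?_
        rw [hG, mul_pow, smul_eq_C_mul, smul_eq_C_mul]
        ring
      rw [h1, hc, mul_zero]
    have hcore := core G hdegG hG0 hspan l hz hrelG hindG
    have hkk : (k' : ℤ) ≤ k := by
      have : k' ≤ k := Nat.sub_le _ _
      exact_mod_cast this
    have hk'z : (1 : ℤ) ≤ k' := by exact_mod_cast hk'1
    have hnz : (1 : ℤ) ≤ n := by exact_mod_cast hn1
    push_cast
    by_cases hde : d < n - 1
    · have h1 : (d : ℤ) ≤ n - 2 := by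
        have : d + 2 ≤ n := by omega
        have : (d : ℤ) + 2 ≤ n := by exact_mod_cast this
        linarith
      nlinarith [mul_nonneg (by linarith : (0 : ℤ) ≤ (k : ℤ) - 1) (by linarith : (0 : ℤ) ≤ (n : ℤ)),
        mul_nonneg (by linarith : (0 : ℤ) ≤ (k : ℤ)) (by linarith : (0 : ℤ) ≤ (n : ℤ) - 2 - d),
        mul_nonneg (mul_nonneg (by linarith : (0 : ℤ) ≤ (k : ℤ) - 1)
          (by linarith : (0 : ℤ) ≤ (n : ℤ))) (by linarith : (0 : ℤ) ≤ (n : ℤ) - 1)]
    · push Not at hde
      have hc1 : ((n : ℤ) + 1) * (k' * ((d : ℤ) - (n - 1))) + n * (n - 1) ≤ n * (k' * d) := by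
        have h2 := hcore
        zify [hde, hn1] at h2
        exact h2
      -- `k' ((n-1)(n+1) - d) ≥ n (n-1)`
      have hc2 : (n : ℤ) * (n - 1) ≤ k' * ((n - 1) * (n + 1) - d) := by nlinarith
      have hpos : 0 ≤ (k' : ℤ) * ((n - 1) * (n + 1) - d) := by
        have : 0 ≤ (n : ℤ) * (n - 1) := mul_nonneg (by linarith) (by linarith)
        linarith
      have hpos2 : 0 ≤ ((n : ℤ) - 1) * (n + 1) - d := by
        by_contra hcon
        push Not at hcon
        have : (k' : ℤ) * ((n - 1) * (n + 1) - d) < 0 :=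
          mul_neg_of_pos_of_neg (by linarith) hcon
        linarith
      have hc3 : (k' : ℤ) * ((n - 1) * (n + 1) - d) ≤ k * ((n - 1) * (n + 1) - d) :=
        mul_le_mul_of_nonneg_right hkk hpos2
      nlinarith

end Pool.Agent.Lib.MP_6e4c7d_nt
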