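import Pool.Agent.Lib.MP_6e4c7d_nt.Defs
import Pool.Agent.Lib.MP_6e4c7d_nt.Uni

/-!
# From binary forms to polynomials in one variable
-/

set_option autoImplicit false

open Finset

namespace Pool.Agent.Lib.MP_6e4c7d_nt

open MvPolynomial in
lemma form_eval {k : ℕ} {f : MvPolynomial (Fin 2) ℂ} (hf : f.IsHomogeneous k) (c : ℂ)
    (x : Fin 2 → ℂ) : eval (fun i => c * x i) f = c ^ k * eval x f := by
  rw [eval_eq', eval_eq', Finset.mul_sum]
  refine Finset.sum_congr rfl fun m hm => ?_
  have hdeg : ∑ i, m i = k := by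
    have h := hf (mem_support_iff.1 hm)
    rw [← h, Finsupp.weight_apply, Finsupp.sum_fintype _ _ (by simp)]
    simp
  simp only [mul_pow, Finset.prod_mul_distrib]
  rw [Finset.prod_pow_eq_pow_sum, hdeg]
  ring

/-- the polynomial in one variable of a form, along the line `X (α, β) + (γ, δ)` -/
noncomputable def line (p q : Fin 2 → ℂ) (f : MvPolynomial (Fin 2) ℂ) : Polynomial ℂ :=
  MvPolynomial.aeval (fun i => Polynomial.C (p i) * Polynomial.X + Polynomial.C (q i)) f

lemma line_eval (p q : Fin 2 → ℂ) (f : MvPolynomial (Fin 2) ℂ) (t : ℂ) :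
    (line p q f).eval t = MvPolynomial.eval (fun i => p i * t + q i) f := by
  unfold line
  have h := MvPolynomial.eval₂_comp_left (Polynomial.evalRingHom t) (algebraMap ℂ (Polynomial ℂ))
    (fun i => Polynomial.C (p i) * Polynomial.X + Polynomial.C (q i)) f
  rw [MvPolynomial.aeval_def]
  rw [Polynomial.coe_evalRingHom] at h
  rw [h, MvPolynomial.eval, MvPolynomial.coe_eval₂Hom]
  congr 1
  · ext x
    simp
  · funext i
    simp

lemma line_coeff {k : ℕ} {f : MvPolynomial (Fin 2) ℂ} (hf : f.IsHomogeneous k)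
    (p q : Fin 2 → ℂ) : (line p q f).natDegree ≤ k ∧
      (line p q f).coeff k = MvPolynomial.eval p f := by
  unfold line
  rw [MvPolynomial.aeval_def, MvPolynomial.eval₂_eq', MvPolynomial.eval_eq']
  have hlin : ∀ i, (Polynomial.C (p i) * Polynomial.X + Polynomial.C (q i)).natDegree ≤ 1 :=
    fun i => Polynomial.natDegree_linear_le
  have hterm : ∀ m ∈ f.support,
      ((algebraMap ℂ (Polynomial ℂ)) (f.coeff m) * ∏ i, (Polynomial.C (p i) * Polynomial.X +
        Polynomial.C (q i)) ^ m i).natDegree ≤ k ∧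
      ((algebraMap ℂ (Polynomial ℂ)) (f.coeff m) * ∏ i, (Polynomial.C (p i) * Polynomial.X +
        Polynomial.C (q i)) ^ m i).coeff k = f.coeff m * ∏ i, p i ^ m i := by
    intro m hm
    have hdeg : m 0 + m 1 = k := by
      have h := hf (MvPolynomial.mem_support_iff.1 hm)
      rw [← h, Finsupp.weight_apply, Finsupp.sum_fintype _ _ (by simp)]
      simp
    have hp : ∀ i, ((Polynomial.C (p i) * Polynomial.X + Polynomial.C (q i)) ^ m i).natDegree ≤
        m i := fun i => (Polynomial.natDegree_pow_le_of_le _ (hlin i)).trans (by rw [mul_one])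
    have hc : ∀ i, ((Polynomial.C (p i) * Polynomial.X + Polynomial.C (q i)) ^ m i).coeff (m i) =
        p i ^ m i := by
      intro i
      have h := Polynomial.coeff_pow_of_natDegree_le (m := m i) (hlin i)
      rw [mul_one] at h
      rw [h]
      simp
    rw [Fin.prod_univ_two, Fin.prod_univ_two]
    constructor
    · refine (Polynomial.natDegree_C_mul_le _ _).trans ?_
      refine Polynomial.natDegree_mul_le.trans ?_
      have h0 := hp 0
      have h1 := hp 1
      omega
    · rw [show (algebraMap ℂ (Polynomial ℂ)) (f.coeff m) = Polynomial.C (f.coeff m) from rfl,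
        Polynomial.coeff_C_mul]
      have h2 := Polynomial.coeff_mul_add_eq_of_natDegree_le (hp 0) (hp 1)
      rw [hdeg] at h2
      rw [h2, hc, hc]
  constructor
  · exact Polynomial.natDegree_sum_le_of_forall_le _ _ fun m hm => (hterm m hm).1
  · rw [Polynomial.finsetSum_coeff]
    exact Finset.sum_congr rfl fun m hm => (hterm m hm).2

theorem wset_bound {k r d : ℕ} (hk : 1 ≤ k) (hd : 1 ≤ d) (f : Fin r → MvPolynomial (Fin 2) ℂ)
    (hf : IsWSet k r d f) : (k : ℤ) * d ≤ ((r : ℤ) - 2) * (((k : ℤ) - 1) * r + 1) := by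
  obtain ⟨hform, hprop, l, ⟨i1, hl1⟩, hrel⟩ := hf
  -- a point outside of all the zero sets
  obtain ⟨p, hp⟩ : ∃ p : Fin 2 → ℂ, ∀ i, MvPolynomial.eval p (f i) ≠ 0 := by
    have hne : ∏ i, f i ≠ 0 := Finset.prod_ne_zero_iff.2 fun i _ => (hform i).2
    by_contra hcon
    push Not at hcon
    apply hne
    refine MvPolynomial.funext fun x => ?_
    obtain ⟨i, hi⟩ := hcon x
    rw [map_prod, map_zero]
    exact Finset.prod_eq_zero (Finset.mem_univ i) hi
  have hp0 : Complex.normSq (p 0) + Complex.normSq (p 1) ≠ 0 := by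
    intro h0
    have h1 := Complex.normSq_nonneg (p 0)
    have h2 := Complex.normSq_nonneg (p 1)
    have h3 : p 0 = 0 := Complex.normSq_eq_zero.1 (by linarith)
    have h4 : p 1 = 0 := Complex.normSq_eq_zero.1 (by linarith)
    have h5 : p = fun i => 0 * p i := by
      funext i
      fin_cases i <;> simp [h3, h4]
    apply hp i1
    rw [h5, form_eval (hform i1).1, zero_pow (by omega), zero_mul]
  set q : Fin 2 → ℂ := ![-(starRingEnd ℂ) (p 1), (starRingEnd ℂ) (p 0)] with hq
  set D : ℂ := ((Complex.normSq (p 0) + Complex.normSq (p 1) : ℝ) : ℂ) with hD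
  have hD0 : D ≠ 0 := by
    rw [hD]
    exact_mod_cast hp0
  have hdet : p 0 * q 1 - p 1 * q 0 = D := by
    simp only [hq, Matrix.cons_val_zero, Matrix.cons_val_one, hD]
    push_cast
    rw [← Complex.mul_conj, ← Complex.mul_conj]
    ring
  -- every point in the new coordinates
  have hcoord : ∀ v : Fin 2 → ℂ, ∃ s t : ℂ, v = fun i => s * p i + t * q i := by
    intro v
    refine ⟨(v 0 * q 1 - v 1 * q 0) / D, (p 0 * v 1 - p 1 * v 0) / D, ?_⟩
    funext i
    fin_cases i
    · show v 0 = (v 0 * q 1 - v 1 * q 0) / D * p 0 + (p 0 * v 1 - p 1 * v 0) / D * q 0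
      have : (v 0 * q 1 - v 1 * q 0) * p 0 + (p 0 * v 1 - p 1 * v 0) * q 0 = v 0 * D := by
        rw [← hdet]; ring
      rw [div_mul_eq_mul_div, div_mul_eq_mul_div, ← add_div, this, mul_div_cancel_right₀ _ hD0]
    · show v 1 = (v 0 * q 1 - v 1 * q 0) / D * p 1 + (p 0 * v 1 - p 1 * v 0) / D * q 1
      have : (v 0 * q 1 - v 1 * q 0) * p 1 + (p 0 * v 1 - p 1 * v 0) * q 1 = v 1 * D := by
        rw [← hdet]; ring
      rw [div_mul_eq_mul_div, div_mul_eq_mul_div, ← add_div, this, mul_div_cancel_right₀ _ hD0]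
  have hcoef : ∀ i, (line p q (f i)).coeff k ≠ 0 := fun i => by
    rw [(line_coeff (hform i).1 p q).2]
    exact hp i
  refine uni_bound d hd r k hk (fun i => line p q (f i)) ⟨fun i => ?_, fun i => ?_, ?_, ?_⟩
  · exact le_antisymm (line_coeff (hform i).1 p q).1 (Polynomial.le_natDegree_of_ne_zero (hcoef i))
  · intro h0
    apply hcoef i
    rw [h0, Polynomial.coeff_zero]
  · intro i j hij c hc
    apply hprop i j hij c
    refine MvPolynomial.funext fun v => ?_
    rw [MvPolynomial.smul_eval]
    obtain ⟨s, t, rfl⟩ := hcoord v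
    by_cases ht : t = 0
    · subst ht
      have e : (fun i => s * p i + 0 * q i) = fun i => s * p i := by
        funext i; ring
      rw [e, form_eval (hform i).1, form_eval (hform j).1, ← (line_coeff (hform i).1 p q).2,
        ← (line_coeff (hform j).1 p q).2, hc, Polynomial.coeff_C_mul]
      ring
    · have e : (fun i => s * p i + t * q i) = fun i => t * (p i * (s / t) + q i) := by
        funext i; field_simp
      rw [e, form_eval (hform i).1, form_eval (hform j).1, ← line_eval, ← line_eval, hc,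
        Polynomial.eval_mul, Polynomial.eval_C]
      ring
  · refine ⟨l, fun h0 => hl1 (congrFun h0 i1), ?_⟩
    have h1 := congrArg (line p q) hrel
    unfold line at h1 ⊢
    rw [map_zero, map_sum] at h1
    rw [← h1]
    refine Finset.sum_congr rfl fun i _ => ?_
    rw [map_smul, map_pow, Polynomial.smul_eq_C_mul]

end Pool.Agent.Lib.MP_6e4c7d_nt
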