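import Pool.Agent.Lib.MP_6e4c7d_nt.Exist

/-!
# Sixteen quadratic forms with dependent forty-fourth powers

The forms are `x y` and `z ^ j x² + b x y - z ^ (-j) y²`, `z ^ 5 = 1`, `b = 1` or `b² + 3 b + 1 = 0`:
the axes of order `5` and `3` of the icosahedron.
-/

set_option autoImplicit false

open Finset MvPolynomial

namespace Pool.Agent.Lib.MP_6e4c7d_nt

/-- the moments of the two solutions of `b² + 3 b + 1 = 0` -/
def mom : ℕ → ℤ := fun e =>
  ([39603, -15127, 5778, -2207, 843, -322, 123, -47, 18, -7, 3, -2, 3, -7, 18, -47, 123, -322, 843,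
    -2207, 5778, -15127, 39603, -103682, 271443, -710647, 1860498, -4870847, 12752043, -33385282,
    87403803, -228826127, 599074578, -1568397607, 4106118243, -10749957122, 28143753123,
    -73681302247, 192900153618, -505019158607, 1322157322203, -3461452808002, 9062201101803,
    -23725150497407, 62113250390418] : List ℤ).getD e 0

lemma mom_rec : ∀ e < 43, mom (e + 2) = -3 * mom (e + 1) - mom e := by decide

lemma mom_eq {R : Type*} [CommRing R] (b₁ b₂ m₁ m₂ : R) (h₁ : b₁ ^ 2 + 3 * b₁ + 1 = 0)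
    (h₂ : b₂ ^ 2 + 3 * b₂ + 1 = 0) (h0 : m₁ + m₂ = 39603) (h1 : m₁ * b₁ + m₂ * b₂ = -15127) :
    ∀ e < 44, m₁ * b₁ ^ e + m₂ * b₂ ^ e = (mom e : R) ∧
      m₁ * b₁ ^ (e + 1) + m₂ * b₂ ^ (e + 1) = (mom (e + 1) : R) := by
  intro e he
  induction e with
  | zero =>
    have e1 : mom 0 = 39603 := rfl
    have e2 : mom (0 + 1) = -15127 := rfl
    rw [e1, e2]
    push_cast
    constructor
    · linear_combination h0
    · linear_combination h1
  | succ e ih =>
    obtain ⟨g1, g2⟩ := ih (by omega)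
    refine ⟨g2, ?_⟩
    rw [mom_rec e (by omega)]
    push_cast
    rw [← g1, ← g2]
    linear_combination m₁ * b₁ ^ e * h₁ + m₂ * b₂ ^ e * h₂

/-- the multinomial coefficient `44! / (p! q! (44 - p - q)!)` -/
def tri (p q : ℕ) : ℕ := (Nat.descFactorial 44 p / p.factorial) *
  (Nat.descFactorial (44 - p) q / q.factorial)

lemma tri_eq (p q : ℕ) : tri p q = Nat.choose 44 p * Nat.choose (44 - p) q := by
  unfold tri
  rw [Nat.choose_eq_descFactorial_div_factorial, Nat.choose_eq_descFactorial_div_factorial]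

/-- the coefficient of `x ^ i y ^ (88 - i)` in `(x² + b x y - y²) ^ 44` -/
def ca {R : Type*} [CommRing R] (b : R) (i : ℕ) : R :=
  ∑ p ∈ range 45, if 2 * p ≤ i ∧ i ≤ 44 + p then
    ((tri p (44 + p - i) : ℤ) * (-1) ^ (44 + p - i) : ℤ) * b ^ (i - 2 * p) else 0

lemma ca_expand {R : Type*} [CommRing R] (b x y : R) :
    (x ^ 2 + b * (x * y) - y ^ 2) ^ 44 = ∑ i ∈ range 89, ca b i * (x ^ i * y ^ (88 - i)) := by
  have h0 : (x ^ 2 + b * (x * y) - y ^ 2) = x ^ 2 + (-y ^ 2 + b * (x * y)) := by ring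
  rw [h0, add_pow]
  have h1 : ∀ p ∈ range (44 + 1), (x ^ 2) ^ p * (-y ^ 2 + b * (x * y)) ^ (44 - p) *
      (Nat.choose 44 p : R) = ∑ i ∈ range 89, (if 2 * p ≤ i ∧ i ≤ 44 + p then
        (((tri p (44 + p - i) : ℤ) * (-1) ^ (44 + p - i) : ℤ) : R) * b ^ (i - 2 * p) else 0) *
          (x ^ i * y ^ (88 - i)) := by
    intro p hp
    have hp' : p ≤ 44 := by
      have := mem_range.1 hp
      omega
    rw [add_pow, Finset.mul_sum, Finset.sum_mul]
    have h2 : ∀ q ∈ range (44 - p + 1), (x ^ 2) ^ p * ((-y ^ 2) ^ q *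
        (b * (x * y)) ^ (44 - p - q) * (Nat.choose (44 - p) q : R)) * (Nat.choose 44 p : R) =
        (fun i => (((tri p (44 + p - i) : ℤ) * (-1) ^ (44 + p - i) : ℤ) : R) * b ^ (i - 2 * p) *
          (x ^ i * y ^ (88 - i))) (44 + p - q) := by
      intro q hq
      have hq' : q ≤ 44 - p := by
        have := mem_range.1 hq
        omega
      simp only
      have e1 : 44 + p - (44 + p - q) = q := by omega
      have e2 : 44 + p - q - 2 * p = 44 - p - q := by omega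
      have e3 : 88 - (44 + p - q) = 2 * q + (44 - p - q) := by omega
      have e4 : 44 + p - q = 2 * p + (44 - p - q) := by omega
      rw [e1, e2, e3, e4, tri_eq, neg_pow, mul_pow, mul_pow, ← pow_mul, ← pow_mul, pow_add, pow_add]
      push_cast
      ring
    rw [Finset.sum_congr rfl h2]
    have h3 : ∑ i ∈ range 89, (if 2 * p ≤ i ∧ i ≤ 44 + p then
        (((tri p (44 + p - i) : ℤ) * (-1) ^ (44 + p - i) : ℤ) : R) * b ^ (i - 2 * p) else 0) *
          (x ^ i * y ^ (88 - i)) = ∑ i ∈ (range 89).filter (fun i => 2 * p ≤ i ∧ i ≤ 44 + p),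
        (fun i => (((tri p (44 + p - i) : ℤ) * (-1) ^ (44 + p - i) : ℤ) : R) * b ^ (i - 2 * p) *
          (x ^ i * y ^ (88 - i))) i := by
      rw [Finset.sum_filter]
      refine Finset.sum_congr rfl fun i _ => ?_
      split_ifs <;> simp
    rw [h3]
    refine Finset.sum_nbij' (fun q => 44 + p - q) (fun i => 44 + p - i) ?_ ?_ ?_ ?_ ?_
    · intro q hq
      simp only [mem_range, mem_filter] at hq ⊢
      omega
    · intro i hi
      simp only [mem_range, mem_filter] at hi ⊢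
      omega
    · intro q hq
      simp only [mem_range] at hq ⊢
      omega
    · intro i hi
      simp only [mem_range, mem_filter] at hi ⊢
      omega
    · intro q hq
      rfl
  rw [Finset.sum_congr rfl h1, Finset.sum_comm]
  refine Finset.sum_congr rfl fun i _ => ?_
  unfold ca
  rw [Finset.sum_mul]

/-- the weighted coefficient -/
def ci (i : ℕ) : ℤ :=
  ∑ p ∈ range 45, if 2 * p ≤ i ∧ i ≤ 44 + p then
    ((tri p (44 + p - i) : ℤ) * (-1) ^ (44 + p - i)) * (801 + mom (i - 2 * p)) else 0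

set_option maxRecDepth 100000 in
lemma ci_zero : ∀ s < 18, s ≠ 8 → ci (5 * s + 4) = 0 := by decide

lemma ci_eq {R : Type*} [CommRing R] (b₁ b₂ m₁ m₂ : R) (h₁ : b₁ ^ 2 + 3 * b₁ + 1 = 0)
    (h₂ : b₂ ^ 2 + 3 * b₂ + 1 = 0) (h0 : m₁ + m₂ = 39603) (h1 : m₁ * b₁ + m₂ * b₂ = -15127)
    (i : ℕ) : 801 * ca 1 i + m₁ * ca b₁ i + m₂ * ca b₂ i = (ci i : R) := by
  unfold ca ci
  rw [Int.cast_sum, Finset.mul_sum, Finset.mul_sum, Finset.mul_sum, ← Finset.sum_add_distrib,
    ← Finset.sum_add_distrib]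
  refine Finset.sum_congr rfl fun p hp => ?_
  by_cases hpi : 2 * p ≤ i ∧ i ≤ 44 + p
  · rw [if_pos hpi, if_pos hpi, if_pos hpi, if_pos hpi]
    have he : i - 2 * p < 45 := by omega
    have hm : m₁ * b₁ ^ (i - 2 * p) + m₂ * b₂ ^ (i - 2 * p) = (mom (i - 2 * p) : R) := by
      rcases Nat.lt_or_ge (i - 2 * p) 44 with h | h
      · exact (mom_eq b₁ b₂ m₁ m₂ h₁ h₂ h0 h1 _ h).1
      · have h44 : i - 2 * p = 43 + 1 := by omega
        rw [h44]
        exact (mom_eq b₁ b₂ m₁ m₂ h₁ h₂ h0 h1 43 (by norm_num)).2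
    push_cast
    rw [← hm, one_pow]
    ring
  · rw [if_neg hpi, if_neg hpi, if_neg hpi, if_neg hpi]
    simp

lemma geom5 {R : Type*} [CommRing R] (z : R) (hz : z ^ 5 = 1)
    (hs : 1 + z + z ^ 2 + z ^ 3 + z ^ 4 = 0) (m : ℕ) :
    ∑ j ∈ range 5, (z ^ m) ^ j = if m % 5 = 0 then 5 else 0 := by
  have hm5 : z ^ m = z ^ (m % 5) := by
    conv_lhs => rw [← Nat.mod_add_div m 5, pow_add, pow_mul, hz, one_pow, mul_one]
  rw [hm5]
  have hlt : m % 5 < 5 := Nat.mod_lt _ (by norm_num)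
  have hz6 : z ^ 6 = z := by rw [show (6 : ℕ) = 5 + 1 from rfl, pow_add, hz]; ring
  have hz8 : z ^ 8 = z ^ 3 := by rw [show (8 : ℕ) = 5 + 3 from rfl, pow_add, hz]; ring
  have hz9 : z ^ 9 = z ^ 4 := by rw [show (9 : ℕ) = 5 + 4 from rfl, pow_add, hz]; ring
  have hz12 : z ^ 12 = z ^ 2 := by
    rw [show (12 : ℕ) = 5 + (5 + 2) from rfl, pow_add, pow_add, hz]; ring
  have hz16 : z ^ 16 = z := by
    rw [show (16 : ℕ) = 5 + (5 + (5 + 1)) from rfl, pow_add, pow_add, pow_add, hz]; ring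
  simp only [Finset.sum_range_succ, Finset.sum_range_zero, ← pow_mul]
  interval_cases h : m % 5
  · norm_num
  · norm_num
    linear_combination hs
  · norm_num
    rw [hz6, hz8]
    linear_combination hs
  · norm_num
    rw [hz6, hz9, hz12]
    linear_combination hs
  · norm_num
    rw [hz8, hz12, hz16]
    linear_combination hs

lemma orbit_sum {R : Type*} [CommRing R] (z b x y : R) (hz : z ^ 5 = 1)
    (hs : 1 + z + z ^ 2 + z ^ 3 + z ^ 4 = 0) :
    ∑ j ∈ range 5, (z ^ j * x ^ 2 + b * (x * y) - z ^ (4 * j) * y ^ 2) ^ 44 =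
      ∑ i ∈ range 89, ca b i * (if (i + 1) % 5 = 0 then 5 * (x ^ i * y ^ (88 - i)) else 0) := by
  have h1 : ∀ j ∈ range 5, (z ^ j * x ^ 2 + b * (x * y) - z ^ (4 * j) * y ^ 2) ^ 44 =
      ∑ i ∈ range 89, ca b i * (x ^ i * y ^ (88 - i)) * (z ^ (i + 1)) ^ j := by
    intro j _
    have hzj : (z ^ j) ^ 5 = 1 := by
      rw [← pow_mul, mul_comm, pow_mul, hz, one_pow]
    have e1 : z ^ j * x ^ 2 + b * (x * y) - z ^ (4 * j) * y ^ 2 =
        (z ^ j) ^ 4 * ((z ^ j * x) ^ 2 + b * ((z ^ j * x) * y) - y ^ 2) := by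
      have : z ^ (4 * j) = (z ^ j) ^ 4 := by rw [← pow_mul, mul_comm]
      rw [this]
      linear_combination -(z ^ j * x ^ 2 + b * (x * y)) * hzj
    rw [e1, mul_pow, ca_expand, Finset.mul_sum]
    refine Finset.sum_congr rfl fun i _ => ?_
    have e2 : ((z ^ j) ^ 4) ^ 44 = z ^ j := by
      have : ((z ^ j) ^ 4) ^ 44 = ((z ^ j) ^ 5) ^ 35 * z ^ j := by ring
      rw [this, hzj, one_pow, one_mul]
    rw [e2, mul_pow]
    have e3 : (z ^ (i + 1)) ^ j = z ^ j * (z ^ j) ^ i := by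
      rw [← pow_mul, ← pow_mul, ← pow_add]
      congr 1
      ring
    rw [e3]
    ring
  rw [Finset.sum_congr rfl h1, Finset.sum_comm]
  refine Finset.sum_congr rfl fun i _ => ?_
  rw [← Finset.mul_sum, geom5 z hz hs]
  split_ifs <;> ring

lemma relation44 {R : Type*} [CommRing R] (z x y b₁ b₂ m₁ m₂ : R) (hz : z ^ 5 = 1)
    (hs : 1 + z + z ^ 2 + z ^ 3 + z ^ 4 = 0) (h₁ : b₁ ^ 2 + 3 * b₁ + 1 = 0)
    (h₂ : b₂ ^ 2 + 3 * b₂ + 1 = 0) (h0 : m₁ + m₂ = 39603) (h1 : m₁ * b₁ + m₂ * b₂ = -15127) :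
    801 * ∑ j ∈ range 5, (z ^ j * x ^ 2 + 1 * (x * y) - z ^ (4 * j) * y ^ 2) ^ 44 +
    m₁ * ∑ j ∈ range 5, (z ^ j * x ^ 2 + b₁ * (x * y) - z ^ (4 * j) * y ^ 2) ^ 44 +
    m₂ * ∑ j ∈ range 5, (z ^ j * x ^ 2 + b₂ * (x * y) - z ^ (4 * j) * y ^ 2) ^ 44 =
      ((5 * ci 44 : ℤ) : R) * (x * y) ^ 44 := by
  rw [orbit_sum z _ x y hz hs, orbit_sum z _ x y hz hs, orbit_sum z _ x y hz hs, Finset.mul_sum,
    Finset.mul_sum, Finset.mul_sum, ← Finset.sum_add_distrib, ← Finset.sum_add_distrib]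
  have h2 : ∀ i ∈ range 89, 801 * (ca 1 i * (if (i + 1) % 5 = 0 then
      5 * (x ^ i * y ^ (88 - i)) else 0)) + m₁ * (ca b₁ i * (if (i + 1) % 5 = 0 then
      5 * (x ^ i * y ^ (88 - i)) else 0)) + m₂ * (ca b₂ i * (if (i + 1) % 5 = 0 then
      5 * (x ^ i * y ^ (88 - i)) else 0)) =
      if i = 44 then ((5 * ci 44 : ℤ) : R) * (x * y) ^ 44 else 0 := by
    intro i hi
    have hi' := mem_range.1 hi
    have e : 801 * (ca 1 i * (if (i + 1) % 5 = 0 then
      5 * (x ^ i * y ^ (88 - i)) else 0)) + m₁ * (ca b₁ i * (if (i + 1) % 5 = 0 then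
      5 * (x ^ i * y ^ (88 - i)) else 0)) + m₂ * (ca b₂ i * (if (i + 1) % 5 = 0 then
      5 * (x ^ i * y ^ (88 - i)) else 0)) = (801 * ca 1 i + m₁ * ca b₁ i + m₂ * ca b₂ i) *
        (if (i + 1) % 5 = 0 then 5 * (x ^ i * y ^ (88 - i)) else 0) := by ring
    rw [e, ci_eq b₁ b₂ m₁ m₂ h₁ h₂ h0 h1]
    by_cases h44 : i = 44
    · subst h44
      rw [if_pos rfl, if_pos (by norm_num)]
      push_cast
      ring
    · rw [if_neg h44]
      by_cases hm : (i + 1) % 5 = 0
      · obtain ⟨s, rfl⟩ : ∃ s, i = 5 * s + 4 := ⟨i / 5, by omega⟩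
        rw [ci_zero s (by omega) (by omega)]
        simp
      · rw [if_neg hm, mul_zero]
  rw [Finset.sum_congr rfl h2, Finset.sum_ite_eq' (range 89) 44]
  simp

lemma wset_of_fintype {I : Type} [Fintype I] (k d : ℕ) (g : I → MvPolynomial (Fin 2) ℂ)
    (h1 : ∀ i, (g i).IsHomogeneous k ∧ g i ≠ 0) (h2 : ∀ i j, i ≠ j → ∀ c : ℂ, g i ≠ c • g j)
    (l : I → ℂ) (hl : ∃ i, l i ≠ 0) (h3 : ∑ i, l i • g i ^ d = 0) :
    ∃ f : Fin (Fintype.card I) → MvPolynomial (Fin 2) ℂ, IsWSet k (Fintype.card I) d f := by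
  let e := (Fintype.equivFin I).symm
  refine ⟨fun a => g (e a), fun a => h1 _, fun a b hab c => h2 _ _ (fun h => hab (e.injective h)) c,
    fun a => l (e a), ?_, ?_⟩
  · obtain ⟨i, hi⟩ := hl
    exact ⟨e.symm i, by simpa using hi⟩
  · rw [← h3]
    exact e.sum_comp fun i => l i • g i ^ d

theorem exists_wset_44 : ∃ f : Fin 16 → MvPolynomial (Fin 2) ℂ, IsWSet 2 16 44 f := by
  set z : ℂ := Complex.exp (2 * Real.pi * Complex.I / 5) with hz
  have hprim : IsPrimitiveRoot z 5 := by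
    have := Complex.isPrimitiveRoot_exp 5 (by norm_num)
    rw [hz]
    exact_mod_cast this
  have hz5 : z ^ 5 = 1 := hprim.pow_eq_one
  have hz0 : z ≠ 0 := hprim.ne_zero (by norm_num)
  have hsum : 1 + z + z ^ 2 + z ^ 3 + z ^ 4 = 0 := by
    have h := hprim.geom_sum_eq_zero (by norm_num)
    simp only [Finset.sum_range_succ, Finset.sum_range_zero] at h
    linear_combination h
  obtain ⟨s, hs⟩ : ∃ s : ℂ, s ^ 2 = 5 := ⟨((√5 : ℝ) : ℂ), by
    have : (√5 : ℝ) ^ 2 = 5 := Real.sq_sqrt (by norm_num)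
    exact_mod_cast this⟩
  have hs0 : s ≠ 0 := by
    rintro rfl
    norm_num at hs
  set b₁ : ℂ := (-3 - s) / 2 with hb₁
  set b₂ : ℂ := (-3 + s) / 2 with hb₂
  set m₁ : ℂ := (39603 - 17711 * s) / 2 with hm₁
  set m₂ : ℂ := (39603 + 17711 * s) / 2 with hm₂
  have h₁ : b₁ ^ 2 + 3 * b₁ + 1 = 0 := by
    rw [hb₁]
    linear_combination (1 / 4) * hs
  have h₂ : b₂ ^ 2 + 3 * b₂ + 1 = 0 := by
    rw [hb₂]
    linear_combination (1 / 4) * hs
  have h0 : m₁ + m₂ = 39603 := by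
    rw [hm₁, hm₂]
    ring
  have h1 : m₁ * b₁ + m₂ * b₂ = -15127 := by
    rw [hm₁, hm₂, hb₁, hb₂]
    linear_combination (35422 / 4) * hs
  have hb12 : b₁ ≠ b₂ := by
    intro h
    apply hs0
    rw [hb₁, hb₂] at h
    linear_combination -h
  have hb1 : b₁ ≠ 1 := by
    intro h
    rw [h] at h₁
    norm_num at h₁
  have hb2 : b₂ ≠ 1 := by
    intro h
    rw [h] at h₂
    norm_num at h₂
  let B : Fin 3 → ℂ := ![1, b₁, b₂]
  let m : Fin 3 → ℂ := ![801, m₁, m₂]
  have hBinj : Function.Injective B := by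
    intro a b hab
    fin_cases a <;> fin_cases b <;> simp [B] at hab ⊢
    · exact hb1 hab.symm
    · exact hb2 hab.symm
    · exact hb1 hab
    · exact hb12 hab
    · exact hb2 hab
    · exact hb12 hab.symm
  let g : Option (Fin 3 × Fin 5) → MvPolynomial (Fin 2) ℂ := fun i => i.elim (X 0 * X 1)
    fun q => C (z ^ (q.2 : ℕ)) * X 0 ^ 2 + C (B q.1) * (X 0 * X 1) -
      C (z ^ (4 * (q.2 : ℕ))) * X 1 ^ 2
  have hgn : g none = X 0 * X 1 := rfl
  have hgs : ∀ q, g (some q) = C (z ^ (q.2 : ℕ)) * X 0 ^ 2 + C (B q.1) * (X 0 * X 1) -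
      C (z ^ (4 * (q.2 : ℕ))) * X 1 ^ 2 := fun q => rfl
  have hXX : (X 0 * X 1 : MvPolynomial (Fin 2) ℂ).IsHomogeneous 2 :=
    (isHomogeneous_X ℂ (0 : Fin 2)).mul (isHomogeneous_X ℂ (1 : Fin 2))
  have hCX : ∀ (c : ℂ) (i : Fin 2), (C c * X i ^ 2 : MvPolynomial (Fin 2) ℂ).IsHomogeneous 2 := by
    intro c i
    have := (isHomogeneous_C (Fin 2) c).mul ((isHomogeneous_X ℂ i).pow 2)
    rwa [zero_add, one_mul] at this
  have hCXX : ∀ c : ℂ, (C c * (X 0 * X 1) : MvPolynomial (Fin 2) ℂ).IsHomogeneous 2 := by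
    intro c
    have := (isHomogeneous_C (Fin 2) c).mul hXX
    rwa [zero_add] at this
  -- values
  have e1 : ∀ q, eval ![1, 0] (g (some q)) = z ^ (q.2 : ℕ) := fun q => by
    rw [hgs]; simp
  have e2 : ∀ q, eval ![0, 1] (g (some q)) = -z ^ (4 * (q.2 : ℕ)) := fun q => by
    rw [hgs]; simp
  have e3 : ∀ q, eval ![1, 1] (g (some q)) = z ^ (q.2 : ℕ) + B q.1 - z ^ (4 * (q.2 : ℕ)) :=
    fun q => by rw [hgs]; simp
  have e4 : eval ![1, 0] (g none) = 0 := by rw [hgn]; simp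
  have e5 : eval ![1, 1] (g none) = 1 := by rw [hgn]; simp
  refine wset_of_fintype 2 44 g ?_ ?_ (fun i => i.elim (-((5 * ci 44 : ℤ) : ℂ)) fun q => m q.1)
    ?_ ?_
  · rintro (_ | q)
    · refine ⟨by rw [hgn]; exact hXX, fun h => ?_⟩
      rw [h] at e5
      simp at e5
    · refine ⟨by rw [hgs]; exact ((hCX _ 0).add (hCXX _)).sub (hCX _ 1), fun h => ?_⟩
      have := e1 q
      rw [h, map_zero] at this
      exact pow_ne_zero _ hz0 this.symm
  · rintro (_ | q) (_ | q') hij c h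
    · exact hij rfl
    · have g1 := congrArg (eval ![1, 0]) h
      have g2 := congrArg (eval ![1, 1]) h
      rw [smul_eval, e4, e1] at g1
      have hc : c = 0 := by
        rcases mul_eq_zero.1 g1.symm with h | h
        · exact h
        · exact absurd h (pow_ne_zero _ hz0)
      rw [smul_eval, e5, hc, zero_mul] at g2
      exact one_ne_zero g2
    · have g1 := congrArg (eval ![1, 0]) h
      rw [smul_eval, e4, e1, mul_zero] at g1
      exact pow_ne_zero _ hz0 g1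
    · have g1 := congrArg (eval ![1, 0]) h
      have g2 := congrArg (eval ![0, 1]) h
      have g3 := congrArg (eval ![1, 1]) h
      rw [smul_eval, e1, e1] at g1
      rw [smul_eval, e2, e2] at g2
      rw [smul_eval, e3, e3] at g3
      have hp : ∀ t : ℕ, z ^ t * z ^ (4 * t) = 1 := fun t => by
        rw [← pow_add, show t + 4 * t = 5 * t by ring, pow_mul, hz5, one_pow]
      have hq : ∀ t : ℕ, (z ^ t) ^ 5 = 1 := fun t => by
        rw [← pow_mul, mul_comm, pow_mul, hz5, one_pow]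
      have hc2 : c ^ 2 = 1 := by
        have a1 := hp (q.2 : ℕ)
        have a2 := hp (q'.2 : ℕ)
        have g2' : z ^ (4 * (q.2 : ℕ)) = c * z ^ (4 * (q'.2 : ℕ)) := by linear_combination -g2
        rw [g1, g2'] at a1
        linear_combination a1 - c ^ 2 * a2
      have hc5 : c ^ 5 = 1 := by
        have a1 := hq (q.2 : ℕ)
        have a2 := hq (q'.2 : ℕ)
        rw [g1, mul_pow, a2, mul_one] at a1
        exact a1
      have hc : c = 1 := by
        have : c ^ 5 = c := by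
          have e : c ^ 5 = (c ^ 2) ^ 2 * c := by ring
          rw [e, hc2, one_pow, one_mul]
        rw [← this, hc5]
      rw [hc, one_mul] at g1 g2 g3
      have hj : (q.2 : ℕ) = q'.2 := hprim.pow_inj q.2.2 q'.2.2 g1
      have hB : B q.1 = B q'.1 := by
        rw [hj] at g3
        linear_combination g3
      apply hij
      congr 1
      exact Prod.ext (hBinj hB) (Fin.ext hj)
  · exact ⟨some (0, 0), by simp [m]⟩
  · rw [Fintype.sum_option, Fintype.sum_prod_type]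
    simp only [Option.elim_none, Option.elim_some, hgn, hgs]
    have hC3 : (C (3 : ℂ) : MvPolynomial (Fin 2) ℂ) = 3 := map_ofNat C 3
    have hCa : (C (39603 : ℂ) : MvPolynomial (Fin 2) ℂ) = 39603 := map_ofNat C 39603
    have hCb : (C (15127 : ℂ) : MvPolynomial (Fin 2) ℂ) = 15127 := map_ofNat C 15127
    have hrel := relation44 (C z : MvPolynomial (Fin 2) ℂ) (X 0) (X 1) (C b₁) (C b₂) (C m₁) (C m₂)
      (by rw [← map_pow, hz5, map_one])
      (by
        have := congrArg (C : ℂ →+* MvPolynomial (Fin 2) ℂ) hsum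
        simpa using this)
      (by
        have := congrArg (C : ℂ →+* MvPolynomial (Fin 2) ℂ) h₁
        rwa [map_add, map_add, map_pow, map_mul, hC3, map_one, map_zero] at this)
      (by
        have := congrArg (C : ℂ →+* MvPolynomial (Fin 2) ℂ) h₂
        rwa [map_add, map_add, map_pow, map_mul, hC3, map_one, map_zero] at this)
      (by
        have := congrArg (C : ℂ →+* MvPolynomial (Fin 2) ℂ) h0
        rwa [map_add, hCa] at this)
      (by
        have := congrArg (C : ℂ →+* MvPolynomial (Fin 2) ℂ) h1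
        rwa [map_add, map_mul, map_mul, map_neg, hCb] at this)
    rw [Finset.sum_range, Finset.sum_range, Finset.sum_range, Finset.mul_sum, Finset.mul_sum,
      Finset.mul_sum] at hrel
    have hC801 : (C (801 : ℂ) : MvPolynomial (Fin 2) ℂ) = 801 := map_ofNat C 801
    rw [Fin.sum_univ_three]
    have k0 : m 0 = 801 := rfl
    have k1 : m 1 = m₁ := rfl
    have k2 : m 2 = m₂ := rfl
    have l0 : B 0 = 1 := rfl
    have l1 : B 1 = b₁ := rfl
    have l2 : B 2 = b₂ := rfl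
    rw [k0, k1, k2, l0, l1, l2, map_one]
    simp only [smul_eq_C_mul, map_pow, hC801]
    rw [hrel]
    have hneg : (C (-((5 * ci 44 : ℤ) : ℂ)) : MvPolynomial (Fin 2) ℂ) =
        -((5 * ci 44 : ℤ) : MvPolynomial (Fin 2) ℂ) := by
      rw [map_neg, map_intCast]
    rw [hneg]
    ring

lemma exists_wset_44_of_le (k : ℕ) (hk : 2 ≤ k) :
    ∃ f : Fin 16 → MvPolynomial (Fin 2) ℂ, IsWSet k 16 44 f := by
  induction k, hk using Nat.le_induction with
  | base => exact exists_wset_44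
  | succ k _ ih =>
    obtain ⟨f, hf⟩ := ih
    exact ⟨_, hf.mul_X⟩

end Pool.Agent.Lib.MP_6e4c7d_nt
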