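import Mathlib

/-!
# Wronskians of polynomials in one variable over a field of characteristic zero
-/

set_option autoImplicit false

open Finset Polynomial

namespace Pool.Agent.Lib.MP_6e4c7d_nt

/-- the matrix of derivatives: row `i` = the derivatives of `g i` -/
noncomputable def wm {n : ℕ} (g : Fin n → ℂ[X]) : Matrix (Fin n) (Fin n) ℂ[X] :=
  Matrix.of fun i a => derivative^[(a : ℕ)] (g i)

/-- the Wronskian -/
noncomputable def wr {n : ℕ} (g : Fin n → ℂ[X]) : ℂ[X] := (wm g).det

/-! ### proportionality from `u v' = u' v` -/

lemma prop_of_deriv {u v : ℂ[X]} (hu : u ≠ 0) (h : u * derivative v = derivative u * v) :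
    ∃ c : ℂ, v = C c * u := by
  refine ⟨v.coeff u.natDegree / u.leadingCoeff, ?_⟩
  set c : ℂ := v.coeff u.natDegree / u.leadingCoeff with hc
  have hlu : u.leadingCoeff ≠ 0 := leadingCoeff_ne_zero.2 hu
  by_contra hne
  set w : ℂ[X] := v - C c * u with hw
  have hw0 : w ≠ 0 := fun h0 => hne (sub_eq_zero.1 h0)
  have hrel : u * derivative w = derivative u * w := by
    rw [hw, derivative_sub, derivative_C_mul, mul_sub, mul_sub, h]
    ring
  have hlw : w.leadingCoeff ≠ 0 := leadingCoeff_ne_zero.2 hw0
  have hcw : w.coeff u.natDegree = 0 := by
    rw [hw, coeff_sub, coeff_C_mul, hc, coeff_natDegree, div_mul_cancel₀ _ hlu, sub_self]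
  set l := u.natDegree with hl
  set m := w.natDegree with hm
  -- compare the coefficients of degree l + m - 1
  have key : (m : ℂ) = l := by
    rcases Nat.eq_zero_or_pos (l + m) with h0 | hpos
    · have h1 : l = 0 := by omega
      have h2 : m = 0 := by omega
      rw [h1, h2]
    have hA : (u * derivative w).coeff (l + m - 1) = u.leadingCoeff * (m * w.leadingCoeff) := by
      rcases Nat.eq_zero_or_pos m with hm0 | hmp
      · have : derivative w = 0 := by
          have h3 := natDegree_eq_zero.1 hm0
          obtain ⟨x, hx⟩ := h3
          rw [← hx, derivative_C]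
        rw [this, hm0]
        simp
      · have e : l + m - 1 = l + (m - 1) := by omega
        rw [e, coeff_mul_add_eq_of_natDegree_le (le_refl _) (natDegree_derivative_le w),
          coeff_natDegree, coeff_derivative]
        have e2 : m - 1 + 1 = m := by omega
        rw [← hm, e2]
        have e3 : (((m - 1 : ℕ) : ℂ) + 1) = m := by
          rw [Nat.cast_sub hmp]; push_cast; ring
        rw [e3, hm, coeff_natDegree]
        ring
    have hB : (derivative u * w).coeff (l + m - 1) = (l * u.leadingCoeff) * w.leadingCoeff := by
      rcases Nat.eq_zero_or_pos l with hl0 | hlp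
      · have : derivative u = 0 := by
          obtain ⟨x, hx⟩ := natDegree_eq_zero.1 hl0
          rw [← hx, derivative_C]
        rw [this, hl0]
        simp
      · have e : l + m - 1 = (l - 1) + m := by omega
        rw [e, coeff_mul_add_eq_of_natDegree_le (natDegree_derivative_le u) (le_refl _),
          coeff_natDegree, coeff_derivative]
        have e2 : l - 1 + 1 = l := by omega
        rw [← hl, e2]
        have e3 : (((l - 1 : ℕ) : ℂ) + 1) = l := by
          rw [Nat.cast_sub hlp]; push_cast; ring
        rw [e3, hl, coeff_natDegree]
        ring
    rw [hrel, hB] at hA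
    have h4 : (u.leadingCoeff * w.leadingCoeff) * ((l : ℂ) - m) = 0 := by
      linear_combination hA
    rcases mul_eq_zero.1 h4 with h5 | h5
    · exact absurd h5 (mul_ne_zero hlu hlw)
    · exact (sub_eq_zero.1 h5).symm
  have hml : m = l := by exact_mod_cast key
  rw [← hml, hm, coeff_natDegree] at hcw
  exact hlw hcw

/-! ### non-vanishing -/

/-- If the Wronskian vanishes then the polynomials are linearly dependent. -/
lemma wr_ne_zero : ∀ {n : ℕ} (g : Fin n → ℂ[X]), LinearIndependent ℂ g → wr g ≠ 0 := by
  intro n
  induction n with
  | zero =>
    intro g _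
    unfold wr
    rw [Matrix.det_isEmpty]
    exact one_ne_zero
  | succ n ih =>
    intro g hg h0
    -- the cofactors of the last column
    set u : Fin (n + 1) → ℂ[X] := fun i => (-1) ^ (i : ℕ) *
      wr (fun j : Fin n => g (i.succAbove j)) with hu
    have hun : u (Fin.last n) ≠ 0 := by
      have h1 : LinearIndependent ℂ (fun j : Fin n => g ((Fin.last n).succAbove j)) :=
        hg.comp _ (Fin.succAbove_right_injective)
      have h2 := ih _ h1
      simp only [hu]
      exact mul_ne_zero (pow_ne_zero _ (neg_ne_zero.2 one_ne_zero)) h2
    -- expansion along the last column with the column `a` in its place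
    have hexp : ∀ a : ℕ, a ≤ n → ∑ i, u i * derivative^[a] (g i) = 0 := by
      intro a ha
      -- the matrix with last column replaced
      set A : Matrix (Fin (n + 1)) (Fin (n + 1)) ℂ[X] :=
        (wm g).updateCol (Fin.last n) (fun i => derivative^[a] (g i)) with hA
      have hdet0 : A.det = 0 := by
        rcases Nat.lt_or_ge a n with hlt | hge
        · -- two equal columns
          refine Matrix.det_zero_of_column_eq (i := ⟨a, by omega⟩) (j := Fin.last n) ?_ ?_
          · intro hh
            have := congrArg Fin.val hh
            simp at this
            omega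
          · intro i
            have hne : (⟨a, by omega⟩ : Fin (n + 1)) ≠ Fin.last n := by
              intro hh
              have := congrArg Fin.val hh
              simp at this
              omega
            rw [hA, Matrix.updateCol_self, Matrix.updateCol_ne hne]
            rfl
        · have han : a = n := by omega
          have : A = wm g := by
            rw [hA]
            ext i j : 2
            by_cases hj : j = Fin.last n
            · subst hj
              rw [Matrix.updateCol_self, han]
              rfl
            · rw [Matrix.updateCol_ne hj]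
          rw [this]
          exact h0
      rw [Matrix.det_succ_column A (Fin.last n)] at hdet0
      have e : ∀ i : Fin (n + 1), (-1) ^ ((i : ℕ) + ((Fin.last n : Fin (n + 1)) : ℕ)) *
          A i (Fin.last n) * (A.submatrix i.succAbove (Fin.last n).succAbove).det =
          (-1) ^ n * (u i * derivative^[a] (g i)) := by
        intro i
        have e1 : A i (Fin.last n) = derivative^[a] (g i) := by
          rw [hA, Matrix.updateCol_self]
        have e2 : A.submatrix i.succAbove (Fin.last n).succAbove =
            wm (fun j : Fin n => g (i.succAbove j)) := by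
          ext p q : 2
          rw [Matrix.submatrix_apply, hA, Matrix.updateCol_ne (Fin.succAbove_ne _ _)]
          simp [wm]
        rw [e1, e2]
        simp only [hu, wr, Fin.val_last]
        rw [pow_add]
        ring
      simp only [e] at hdet0
      rw [← Finset.mul_sum] at hdet0
      rcases mul_eq_zero.1 hdet0 with h5 | h5
      · exact absurd h5 (pow_ne_zero _ (neg_ne_zero.2 one_ne_zero))
      · exact h5
    -- differentiate
    have hdiff : ∀ a : ℕ, a < n → ∑ i, derivative (u i) * derivative^[a] (g i) = 0 := by
      intro a ha
      have h1 := congrArg derivative (hexp a ha.le)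
      rw [derivative_sum, derivative_zero] at h1
      have h2 : ∀ i, derivative (u i * derivative^[a] (g i)) =
          derivative (u i) * derivative^[a] (g i) + u i * derivative^[a + 1] (g i) := by
        intro i
        rw [derivative_mul, Function.iterate_succ_apply']
      simp only [h2, Finset.sum_add_distrib] at h1
      rw [hexp (a + 1) ha, add_zero] at h1
      exact h1
    set v : Fin n → ℂ[X] := fun j => u (Fin.last n) * derivative (u j.castSucc) -
      derivative (u (Fin.last n)) * u j.castSucc with hv
    have hvrel : ∀ a : Fin n, ∑ j : Fin n, v j * derivative^[(a : ℕ)] (g j.castSucc) = 0 := by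
      intro a
      have h1 := hexp a (Nat.le_of_lt a.2)
      have h2 := hdiff a a.2
      rw [Fin.sum_univ_castSucc] at h1 h2
      have e : ∀ j : Fin n, v j * derivative^[(a : ℕ)] (g j.castSucc) =
          u (Fin.last n) * (derivative (u j.castSucc) * derivative^[(a : ℕ)] (g j.castSucc)) -
          derivative (u (Fin.last n)) * (u j.castSucc * derivative^[(a : ℕ)] (g j.castSucc)) := by
        intro j
        simp only [hv]
        ring
      simp only [e, Finset.sum_sub_distrib, ← Finset.mul_sum]
      linear_combination u (Fin.last n) * h2 - derivative (u (Fin.last n)) * h1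
    have hv0 : ∀ j, v j = 0 := by
      -- the matrix `wm (g ∘ castSucc)` has non-zero determinant
      have hdet : (wm (fun j : Fin n => g j.castSucc)).det ≠ 0 := by
        have h1 : LinearIndependent ℂ (fun j : Fin n => g j.castSucc) :=
          hg.comp _ (Fin.castSucc_injective n)
        exact ih _ h1
      have hvec : Matrix.vecMul v (wm (fun j : Fin n => g j.castSucc)) = 0 := by
        funext a
        simp only [Matrix.vecMul, dotProduct, wm, Matrix.of_apply, Pi.zero_apply]
        exact hvrel a
      have := Matrix.eq_zero_of_vecMul_eq_zero hdet hvec
      intro j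
      rw [this]
      rfl
    -- the cofactors are proportional
    have hc : ∀ j : Fin n, ∃ c : ℂ, u j.castSucc = C c * u (Fin.last n) := by
      intro j
      exact prop_of_deriv hun (by have := hv0 j; simp only [hv] at this; exact sub_eq_zero.1 this)
    choose c hc using hc
    have hfin := hexp 0 (Nat.zero_le n)
    rw [Fin.sum_univ_castSucc] at hfin
    simp only [Function.iterate_zero, id_eq] at hfin
    have h6 : u (Fin.last n) * (∑ j : Fin n, C (c j) * g j.castSucc + g (Fin.last n)) = 0 := by
      have e6 : ∑ j : Fin n, u (Fin.last n) * (C (c j) * g j.castSucc) =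
          ∑ j : Fin n, u j.castSucc * g j.castSucc :=
        Finset.sum_congr rfl fun j _ => by rw [hc j]; ring
      rw [mul_add, Finset.mul_sum, e6]
      exact hfin
    rcases mul_eq_zero.1 h6 with h7 | h7
    · exact hun h7
    rw [Fintype.linearIndependent_iff] at hg
    have h8 := hg (Fin.snoc c 1) (by
      rw [Fin.sum_univ_castSucc]
      simp only [Fin.snoc_castSucc, Fin.snoc_last, one_smul]
      have e7 : ∑ j : Fin n, c j • g j.castSucc = ∑ j : Fin n, C (c j) * g j.castSucc :=
        Finset.sum_congr rfl fun j _ => by rw [smul_eq_C_mul]
      rw [e7]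
      exact h7) (Fin.last n)
    rw [Fin.snoc_last] at h8
    exact one_ne_zero h8

end Pool.Agent.Lib.MP_6e4c7d_nt
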